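import Pool.Agent.PuncBundle.Final

set_option autoImplicit false

/-!
# A nontrivial bundle with fibre `ℂ^2` over the punctured plane whose total space is not affine
-/

open AlgebraicGeometry CategoryTheory CategoryTheory.Limits

namespace Pool.Agent.Results.MP_e97ce4_ag.NontrivialNonaffine

/-- The affine plane over the complex numbers. -/
noncomputable abbrev plane : Scheme.{0} := Spec (CommRingCat.of (MvPolynomial (Fin 2) ℂ))

/-- The complement of the origin in the plane: the points where one of the two coordinates does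
not vanish. -/
noncomputable def punctured : plane.Opens :=
  (PrimeSpectrum.basicOpen (MvPolynomial.X 0 : MvPolynomial (Fin 2) ℂ) ⊔
    PrimeSpectrum.basicOpen (MvPolynomial.X 1 : MvPolynomial (Fin 2) ℂ) : plane.Opens)

/-- The structure morphism of the affine space `ℂ^n`. -/
noncomputable def affineSpace (n : ℕ) : Spec (CommRingCat.of (MvPolynomial (Fin n) ℂ)) ⟶
    Spec (CommRingCat.of ℂ) :=
  Spec.map (CommRingCat.ofHom (algebraMap ℂ (MvPolynomial (Fin n) ℂ)))

/-- The structure morphism of the punctured plane. -/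
noncomputable def structurePlane : punctured.toScheme ⟶ Spec (CommRingCat.of ℂ) :=
  punctured.ι ≫ Spec.map (CommRingCat.ofHom (algebraMap ℂ (MvPolynomial (Fin 2) ℂ)))

/-- Let `S` be a scheme over `ℂ` (structure morphism `s`) and `p : X ⟶ S` a morphism. Then `X` is
isomorphic over `S` to the product of `S` and `ℂ^n`. -/
def IsTrivial {X S : Scheme.{0}} (p : X ⟶ S) (s : S ⟶ Spec (CommRingCat.of ℂ)) (n : ℕ) : Prop :=
  ∃ e : X ≅ pullback s (affineSpace n), e.hom ≫ pullback.fst s (affineSpace n) = p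

/-- Every point of `S` has an open neighbourhood over which `p` is trivial with fibre `ℂ^n`. -/
def IsBundle {X S : Scheme.{0}} (p : X ⟶ S) (s : S ⟶ Spec (CommRingCat.of ℂ)) (n : ℕ) : Prop :=
  ∀ x : S, ∃ V : S.Opens, x ∈ V ∧ IsTrivial (p ∣_ V) (V.ι ≫ s) n

/-- There is a Zariski locally trivial bundle over the punctured plane with fibre `ℂ^2` whose total
space is not affine and which is not trivial. -/
theorem result : ∃ (X : Scheme.{0}) (p : X ⟶ punctured.toScheme),
    IsBundle p structurePlane 2 ∧ ¬ IsAffine X ∧ ¬ IsTrivial p structurePlane 2 := by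
  have hloc : ∀ x : (PuncBundle.UU).toScheme, ∃ V : (PuncBundle.UU).toScheme.Opens, x ∈ V ∧
      ∃ e : ((Spec.map PuncBundle.φ ∣_ PuncBundle.UU) ⁻¹ᵁ V).toScheme ≅
          pullback (V.ι ≫ (PuncBundle.UU).ι ≫
            Spec.map (CommRingCat.ofHom (algebraMap ℂ (MvPolynomial (Fin 2) ℂ))))
            (Spec.map (CommRingCat.ofHom (algebraMap ℂ (MvPolynomial (Fin 2) ℂ)))),
        e.hom ≫ pullback.fst
            (V.ι ≫ (PuncBundle.UU).ι ≫
              Spec.map (CommRingCat.ofHom (algebraMap ℂ (MvPolynomial (Fin 2) ℂ))))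
            (Spec.map (CommRingCat.ofHom (algebraMap ℂ (MvPolynomial (Fin 2) ℂ))))
          = (Spec.map PuncBundle.φ ∣_ PuncBundle.UU) ∣_ V := by
    intro x
    have hx : x.1 ∈ PuncBundle.UU := x.2
    rcases hx with hx | hx
    · have hr : (Spec.map (CommRingCat.ofHom (algebraMap PuncBundle.A PuncBundle.Ax))).opensRange
          = (PrimeSpectrum.basicOpen PuncBundle.xA : (Spec (CommRingCat.of PuncBundle.A)).Opens) :=
        TopologicalSpace.Opens.ext (PrimeSpectrum.localization_away_comap_range _ _)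
      obtain ⟨V, hV, e, he⟩ := PuncBundle.exists_iso_of_chart PuncBundle.φ PuncBundle.UU
        (CommRingCat.ofHom (algebraMap ℂ (MvPolynomial (Fin 2) ℂ)))
        (CommRingCat.ofHom (algebraMap PuncBundle.A PuncBundle.Ax))
        (CommRingCat.ofHom (algebraMap ℂ (MvPolynomial (Fin 2) ℂ)))
        _ _ _ PuncBundle.isPushout_x (PuncBundle.isPushout_poly ℂ PuncBundle.Ax)
        (by rw [hr]; exact le_sup_left)
      refine ⟨V, ?_, e, he⟩
      rw [hV, hr]
      exact hx
    · have hr : (Spec.map (CommRingCat.ofHom (algebraMap PuncBundle.A PuncBundle.Ay))).opensRange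
          = (PrimeSpectrum.basicOpen PuncBundle.yA : (Spec (CommRingCat.of PuncBundle.A)).Opens) :=
        TopologicalSpace.Opens.ext (PrimeSpectrum.localization_away_comap_range _ _)
      obtain ⟨V, hV, e, he⟩ := PuncBundle.exists_iso_of_chart PuncBundle.φ PuncBundle.UU
        (CommRingCat.ofHom (algebraMap ℂ (MvPolynomial (Fin 2) ℂ)))
        (CommRingCat.ofHom (algebraMap PuncBundle.A PuncBundle.Ay))
        (CommRingCat.ofHom (algebraMap ℂ (MvPolynomial (Fin 2) ℂ)))
        _ _ _ PuncBundle.isPushout_y (PuncBundle.isPushout_poly ℂ PuncBundle.Ay)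
        (by rw [hr]; exact le_sup_right)
      refine ⟨V, ?_, e, he⟩
      rw [hV, hr]
      exact hx
  -- the total space is not affine
  have hna : ¬ IsAffine (Spec.map PuncBundle.φ ⁻¹ᵁ PuncBundle.UU).toScheme := by
    let p : Spec (CommRingCat.of PuncBundle.R) :=
      PrimeSpectrum.comap (((TrivSqZeroExt.fstHom ℂ ℂ ℂ) : DualNumber ℂ →+* ℂ).comp
        PuncBundle.evalDual) ⊥
    refine PuncBundle.not_isAffine_of_isIso_resHom _ _ PuncBundle.isIso_R p ?_
    rw [PuncBundle.preimage_UU]
    have hx : ∀ a : PuncBundle.A, MvPolynomial.eval (fun _ => (0 : ℂ)) a = 0 →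
        algebraMap PuncBundle.A PuncBundle.R a ∈ p.asIdeal := by
      intro a ha
      change (((TrivSqZeroExt.fstHom ℂ ℂ ℂ) : DualNumber ℂ →+* ℂ).comp
        PuncBundle.evalDual) (algebraMap PuncBundle.A PuncBundle.R a) ∈ (⊥ : Ideal ℂ)
      rw [RingHom.comp_apply, PuncBundle.evalDual_algebraMap, ha]
      simp
    rintro (h | h)
    · exact h (hx _ (by simp))
    · exact h (hx _ (by simp))
  refine ⟨(Spec.map PuncBundle.φ ⁻¹ᵁ PuncBundle.UU).toScheme, Spec.map PuncBundle.φ ∣_ PuncBundle.UU,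
    hloc, hna, ?_⟩
  intro htriv
  obtain ⟨e, he⟩ : ∃ e : (Spec.map PuncBundle.φ ⁻¹ᵁ PuncBundle.UU).toScheme ≅
          pullback ((PuncBundle.UU).ι ≫ Spec.map (CommRingCat.ofHom (algebraMap ℂ (MvPolynomial (Fin 2) ℂ))))
            (Spec.map (CommRingCat.ofHom (algebraMap ℂ (MvPolynomial (Fin 2) ℂ)))),
        e.hom ≫ pullback.fst
            ((PuncBundle.UU).ι ≫ Spec.map (CommRingCat.ofHom (algebraMap ℂ (MvPolynomial (Fin 2) ℂ))))
            (Spec.map (CommRingCat.ofHom (algebraMap ℂ (MvPolynomial (Fin 2) ℂ))))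
          = Spec.map PuncBundle.φ ∣_ PuncBundle.UU := htriv
  obtain ⟨E, hE⟩ := PuncBundle.exists_iso_trivial PuncBundle.ψ PuncBundle.UU
    (CommRingCat.ofHom (algebraMap ℂ (MvPolynomial (Fin 2) ℂ)))
    (CommRingCat.ofHom (algebraMap ℂ (MvPolynomial (Fin 2) ℂ))) _
    (PuncBundle.isPushout_poly ℂ PuncBundle.A)
  obtain ⟨f, hf⟩ := PuncBundle.exists_algebra_iso PuncBundle.φ PuncBundle.ψ PuncBundle.UU
    PuncBundle.isIso_R PuncBundle.isIso_P (e ≪≫ E.symm) (by
      rw [← hE, Iso.trans_hom, Iso.symm_hom, Category.assoc, Iso.inv_hom_id_assoc]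
      exact he)
  exact PuncBundle.no_algebra_iso f hf


end Pool.Agent.Results.MP_e97ce4_ag.NontrivialNonaffine
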